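import Pool.Agent.H18.QGR.Stmts

/-!
Row WKI of the board qgr (MP_286349_an): the map of Wick polynomials is a left inverse.
-/

set_option autoImplicit false

noncomputable section

namespace Pool.QGR

open Pool.CGR

namespace WKIA

variable {m : ℕ} (q : Fin m → Fin m → ℝ)

theorem xi_single (w : List (Fin m)) (r : ℂ) : Xi q (Finsupp.single w r) = r • Wk q w := by
  unfold Xi
  rw [Finsupp.linearCombination_single]

theorem wk_cons (j : Fin m) (w : List (Fin m)) : Wk q (j :: w) = cn j (Wk q w) -
    ∑ k ∈ Finset.range w.length,
      if w[k]? = some j then om q j (w.take k) • Wk q (w.eraseIdx k) else 0 := by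
  rw [Wk]

theorem cn_single (j : Fin m) (w : List (Fin m)) (r : ℂ) :
    cn j (Finsupp.single w r) = Finsupp.single (j :: w) r := by
  unfold cn
  rw [Finsupp.lmapDomain_apply, Finsupp.mapDomain_single]

theorem xi_X (j : Fin m) (g : E m) : Xi q (X q j g) = cn j (Xi q g) := by
  induction g using Finsupp.induction_linear with
  | zero => simp only [map_zero]
  | add f g hf hg => simp only [map_add, hf, hg]
  | single w r =>
    have h1 : (Finsupp.single w r : E m) = r • Finsupp.single w 1 := by
      rw [Finsupp.smul_single, smul_eq_mul, mul_one]
    rw [h1, map_smul, map_smul, map_smul, map_smul]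
    congr 1
    unfold X
    rw [LinearMap.add_apply, map_add, cn_single, xi_single, one_smul, xi_single, one_smul,
      wk_cons]
    have h2 : Xi q (an q j (Finsupp.single w 1)) = ∑ k ∈ Finset.range w.length,
        if w[k]? = some j then om q j (w.take k) • Wk q (w.eraseIdx k) else 0 := by
      unfold an
      rw [Finsupp.linearCombination_single, one_smul, map_sum]
      refine Finset.sum_congr rfl fun k _ => ?_
      split_ifs
      · rw [xi_single]
      · rw [map_zero]
    rw [h2, sub_add_cancel]

theorem xi_Fk (w : List (Fin m)) : Xi q (Fk q w) = Finsupp.single w 1 := by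
  induction w with
  | nil =>
    rw [Fk, xi_single, one_smul, Wk]
  | cons j w ih => rw [Fk, xi_X, ih, cn_single]

end WKIA

theorem wki_thm : WKIStmt := by
  intro m q f
  induction f using Finsupp.induction_linear with
  | zero => simp only [map_zero]
  | add f g hf hg => simp only [map_add, hf, hg]
  | single w r =>
    unfold Ph
    rw [Finsupp.linearCombination_single, map_smul, WKIA.xi_Fk, Finsupp.smul_single, smul_eq_mul,
      mul_one]

end Pool.QGR
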